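import Pool.Agent.Y561.KS.Main
import Pool.Agent.W684.MADef

open Set Cardinal

set_option linter.all false

namespace Pool.Agent.Y561.KS

open Pool.Agent.W684

/-- finite sequences of bits, longer is stronger -/
structure Coh : Type where
  l : List Bool

instance : Preorder Coh where
  le q p := p.l <+: q.l
  le_refl p := List.prefix_rfl
  le_trans r q p h1 h2 := h2.trans h1

instance : Nonempty Coh := ⟨⟨[]⟩⟩

instance : Countable Coh :=
  Function.Injective.countable (f := Coh.l) (by
    rintro ⟨a⟩ ⟨b⟩ h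
    exact congrArg Coh.mk h)

theorem get_of_le {q p : Coh} (h : q ≤ p) {n : ℕ} {b : Bool} (hb : p.l[n]? = some b) :
    q.l[n]? = some b := by
  obtain ⟨t, ht⟩ : p.l <+: q.l := h
  rw [← ht]
  have hlt : n < p.l.length := by
    by_contra hcon
    rw [List.getElem?_eq_none (not_lt.1 hcon)] at hb
    exact absurd hb (by simp)
  rw [List.getElem?_append_left hlt]
  exact hb

theorem aleph_one_lt_of_ma (hMA : MartinAxiomAleph1) : (ℵ₁ : Cardinal.{0}) < 𝔠 := by
  classical
  by_contra hcon
  have hle : (𝔠 : Cardinal.{0}) ≤ ℵ₁ := not_lt.1 hcon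
  let D : (ℕ → Bool) → Set Coh := fun f => {q | ∃ n b, q.l[n]? = some b ∧ b ≠ f n}
  have hcard : #(Set.range D) ≤ ℵ₁ := by
    refine Cardinal.mk_range_le.trans ?_
    have h1 : #(ℕ → Bool) = (𝔠 : Cardinal.{0}) := by simp
    rw [h1]
    exact hle
  obtain ⟨G, -, -, hdir, hG⟩ := hMA Coh (fun A _ => Set.to_countable A) (Set.range D) hcard (by
    rintro _ ⟨f, rfl⟩ p
    refine ⟨⟨p.l ++ [!(f p.l.length)]⟩, ⟨p.l.length, !(f p.l.length), ?_, ?_⟩,
      List.prefix_append _ _⟩
    · simp
    · cases f p.l.length <;> simp)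
  let g : ℕ → Bool := fun n => decide (∃ q ∈ G, q.l[n]? = some true)
  obtain ⟨q, hqG, n, b, hb, hne⟩ := hG _ ⟨g, rfl⟩
  cases b with
  | true =>
    apply hne
    have h1 : ∃ q ∈ G, q.l[n]? = some true := ⟨q, hqG, hb⟩
    simp [g, h1]
  | false =>
    have h1 : g n = true := by
      cases hgn : g n
      · exact absurd hgn.symm hne
      · rfl
    have h2 : ∃ q ∈ G, q.l[n]? = some true := by
      simpa [g] using h1
    obtain ⟨q', hq', hb'⟩ := h2
    obtain ⟨r, -, hr1, hr2⟩ := hdir q hqG q' hq'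
    have h3 := get_of_le hr1 hb
    have h4 := get_of_le hr2 hb'
    rw [h3] at h4
    simp at h4

theorem ma_sigma_of_ma (hMA : MartinAxiomAleph1) (hc : (𝔠 : Cardinal.{0}) ≤ ℵ_ 2) :
    MASigmaCentered := by
  intro P _ _ hP 𝒟 hcard hD
  classical
  have hle : #𝒟 ≤ ℵ₁ := by
    have h1 : #𝒟 < ℵ_ 2 := hcard.trans_le hc
    have h2 : (ℵ_ 2 : Cardinal.{0}) = Order.succ ℵ₁ := by
      rw [← Cardinal.aleph_succ]
      congr 1
      norm_num
    rw [h2, Order.lt_succ_iff] at h1
    exact h1
  have hccc : IsCCC P := by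
    obtain ⟨C, hC1, hC2⟩ := hP
    intro A hA
    choose i hi using hC1
    have hinj : Set.InjOn i A := by
      intro p hp q hq hpq
      by_contra hne
      refine hA p hp q hq hne ?_
      obtain ⟨r, hr⟩ := hC2 (i p) {p, q} (by
        intro x hx
        rcases Finset.mem_insert.1 (Finset.mem_coe.1 hx) with rfl | hx
        · exact hi _
        · rw [Finset.mem_singleton] at hx
          subst hx
          rw [hpq]
          exact hi _)
      exact ⟨r, hr p (by simp), hr q (by simp)⟩
    exact (Set.countable_of_injective_of_countable_image hinj (Set.to_countable _))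
  obtain ⟨G, h1, h2, h3, h4⟩ := hMA P hccc 𝒟 hle hD
  exact ⟨G, h1, h2, h3, fun D hDD => h4 D hDD⟩

end Pool.Agent.Y561.KS
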