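import Pool.Agent.Results.MP_618ed1_al.ConsistentlyYes

open Set Cardinal Equiv

set_option linter.all false

namespace Pool.Agent.Y561.KS

open Pool.Agent.Results.MP_618ed1_al.ConsistentlyYes

/-- `D` is dense in the preordered set `P`. -/
def DenseIn (P : Type) [Preorder P] (D : Set P) : Prop := ∀ p : P, ∃ q ∈ D, q ≤ p

/-- The preordered set `P` is σ-centered: it is the union of countably many sets `C n` such that
every finite subset of `C n` has a lower bound in `P`. -/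
def SigmaCentered (P : Type) [Preorder P] : Prop :=
  ∃ C : ℕ → Set P, (∀ p, ∃ n, p ∈ C n) ∧
    ∀ (n : ℕ) (s : Finset P), (s : Set P) ⊆ C n → ∃ q : P, ∀ p ∈ s, q ≤ p

/-- Martin's axiom for σ-centered preordered sets. -/
def MASigmaCentered : Prop :=
  ∀ (P : Type) [Preorder P] [Nonempty P], SigmaCentered P →
    ∀ 𝒟 : Set (Set P), #𝒟 < 𝔠 → (∀ D ∈ 𝒟, DenseIn P D) →
      ∃ G : Set P, G.Nonempty ∧ (∀ p ∈ G, ∀ q, p ≤ q → q ∈ G) ∧
        (∀ p ∈ G, ∀ q ∈ G, ∃ r ∈ G, r ≤ p ∧ r ≤ q) ∧ ∀ D ∈ 𝒟, ∃ p ∈ G, p ∈ D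

/-- the continuum hypothesis implies Martin's axiom -/
theorem ma_of_ch (hCH : Cardinal.aleph 1 = Cardinal.continuum.{0}) : MASigmaCentered := by
  intro P _ hne _ 𝒟 hcard hD
  classical
  have hcount : 𝒟.Countable := by
    rw [← hCH] at hcard
    have h2 : #𝒟 ≤ Cardinal.aleph0 := by
      rw [← Order.lt_succ_iff, Cardinal.succ_aleph0]
      exact hcard
    exact (Cardinal.mk_le_aleph0_iff.1 h2).to_set
  have hcount' : (insert (Set.univ : Set P) 𝒟).Countable := hcount.insert _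
  obtain ⟨E, hE⟩ := hcount'.exists_eq_range (Set.insert_nonempty _ _)
  have hEd : ∀ n, DenseIn P (E n) := by
    intro n
    have h1 : E n ∈ insert (Set.univ : Set P) 𝒟 := by rw [hE]; exact ⟨n, rfl⟩
    rcases h1 with h1 | h1
    · intro p
      exact ⟨p, by rw [h1]; trivial, le_refl p⟩
    · exact hD _ h1
  choose nx hn1 hn2 using hEd
  let f : ℕ → P := fun n => Nat.rec (Classical.arbitrary P) (fun n p => nx n p) n
  have hf : ∀ n, f (n + 1) = nx n (f n) := fun n => rfl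
  have hanti : Antitone f := antitone_nat_of_succ_le fun n => by rw [hf]; exact hn2 n (f n)
  refine ⟨{p | ∃ n, f n ≤ p}, ⟨f 0, 0, le_refl _⟩, ?_, ?_, ?_⟩
  · rintro p ⟨n, hn⟩ q hpq
    exact ⟨n, hn.trans hpq⟩
  · rintro p ⟨n, hn⟩ q ⟨m, hm⟩
    exact ⟨f (max n m), ⟨_, le_refl _⟩, (hanti (le_max_left n m)).trans hn,
      (hanti (le_max_right n m)).trans hm⟩
  · intro D hDD
    have h1 : D ∈ insert (Set.univ : Set P) 𝒟 := Or.inr hDD
    rw [hE] at h1
    obtain ⟨n, rfl⟩ := h1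
    exact ⟨f (n + 1), ⟨n + 1, le_refl _⟩, by rw [hf]; exact hn1 n (f n)⟩

/-- The conditions: a finite approximation and a finite set of promises. -/
structure Cond {k : ℕ} (c c' : ℕ → Fin k) (H : Subgroup (Perm ℕ)) : Type where
  p : Finset (ℕ × ℕ)
  F : Finset (Perm ℕ)
  good : Good c c' p
  sub : ∀ h ∈ F, h ∈ H

instance {k : ℕ} (c c' : ℕ → Fin k) (H : Subgroup (Perm ℕ)) : Preorder (Cond c c' H) where
  le q p := p.F ⊆ q.F ∧ Ext c c' (p.F : Set (Perm ℕ)) p.p q.p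
  le_refl p := ⟨Finset.Subset.refl _, Relation.ReflTransGen.refl⟩
  le_trans r q p h1 h2 := ⟨h2.1.trans h1.1,
    h2.2.trans (Ext.mono (by exact_mod_cast h2.1) h1.2)⟩

theorem Cond.le_def {k : ℕ} {c c' : ℕ → Fin k} {H : Subgroup (Perm ℕ)} {q p : Cond c c' H} :
    q ≤ p ↔ p.F ⊆ q.F ∧ Ext c c' (p.F : Set (Perm ℕ)) p.p q.p := Iff.rfl

/-- the trivial condition -/
def Cond.triv {k : ℕ} (c c' : ℕ → Fin k) (H : Subgroup (Perm ℕ)) : Cond c c' H :=
  ⟨∅, ∅, ⟨by simp, by simp, by simp⟩, by simp⟩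

instance {k : ℕ} (c c' : ℕ → Fin k) (H : Subgroup (Perm ℕ)) : Nonempty (Cond c c' H) :=
  ⟨Cond.triv c c' H⟩

theorem sigmaCentered {k : ℕ} (c c' : ℕ → Fin k) (H : Subgroup (Perm ℕ)) :
    SigmaCentered (Cond c c' H) := by
  classical
  refine ⟨fun n => {q | Encodable.encode q.p = n}, fun p => ⟨_, rfl⟩, ?_⟩
  intro n s hs
  rcases s.eq_empty_or_nonempty with rfl | ⟨p0, hp0⟩
  · exact ⟨Cond.triv c c' H, by simp⟩
  have hsame : ∀ p ∈ s, p.p = p0.p := by
    intro p hp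
    have h1 : Encodable.encode p.p = n := hs hp
    have h2 : Encodable.encode p0.p = n := hs hp0
    exact Encodable.encode_injective (h1.trans h2.symm)
  refine ⟨⟨p0.p, s.biUnion fun p => p.F, p0.good, ?_⟩, ?_⟩
  · intro h hh
    obtain ⟨p, hp, hph⟩ := Finset.mem_biUnion.1 hh
    exact p.sub h hph
  · intro p hp
    refine ⟨Finset.subset_biUnion_of_mem (fun p : Cond c c' H => p.F) hp, ?_⟩
    show Ext c c' _ p.p p0.p
    rw [hsame p hp]
    exact Relation.ReflTransGen.refl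

theorem exists_g' (hMA : MASigmaCentered) {k : ℕ} {c c' : ℕ → Fin k}
    (hc : ∀ j, {x | c x = j}.Infinite)
    (hc' : ∀ j, {x | c' x = j}.Infinite) {x0 x1 : ℕ → Fin (k + 1)}
    (hx1 : ∀ j, {x | x1 x = j}.Infinite) (H : Subgroup (Perm ℕ))
    (hHc : #H < 𝔠)
    (hH : ∀ h ∈ H, h ≠ 1 → {x | h x = x}.Finite) :
    ∃ g : Perm ℕ, (∀ n, c' (g n) = c n) ∧ Gen c c' H g ∧
      ∀ (L : List (Bool × Perm ℕ)) (h0 : Perm ℕ), h0 ∈ H → L ≠ [] → Red L → (∀ x ∈ L, x.2 ∈ H) →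
        ∃ a b, x0 a = x0 b ∧ x1 ((ev g L * h0) a) ≠ x1 ((ev g L * h0) b) := by
  classical
  let wd : List (Bool × H) → List (Bool × Perm ℕ) := fun L => L.map fun x => (x.1, (x.2 : Perm ℕ))
  have hwd : ∀ L : List (Bool × Perm ℕ), (∀ x ∈ L, x.2 ∈ H) → ∃ L' : List (Bool × H), wd L' = L := by
    intro L
    induction L with
    | nil => exact fun _ => ⟨[], rfl⟩
    | cons a L ih =>
      intro h
      obtain ⟨L', hL'⟩ := ih fun x hx => h x (List.mem_cons_of_mem _ hx)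
      refine ⟨(a.1, ⟨a.2, h a (by simp)⟩) :: L', ?_⟩
      simp [wd] at hL' ⊢
      exact hL'
  have hwdH : ∀ L : List (Bool × H), ∀ x ∈ wd L, x.2 ∈ H := by
    intro L x hx
    obtain ⟨y, hy, rfl⟩ := List.mem_map.1 hx
    exact y.2.2
  let T : ℕ ⊕ (H ⊕ (H × List (Bool × H))) → Set (Cond c c' H) := fun i => match i with
    | Sum.inl n => {q | (∃ y, E (q.p : Set (ℕ × ℕ)) true n y) ∧ ∃ y, E (q.p : Set (ℕ × ℕ)) false n y}
    | Sum.inr (Sum.inl h) => {q | (h : Perm ℕ) ∈ q.F}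
    | Sum.inr (Sum.inr w) => {q | w.2 ≠ [] → Red (wd w.2) →
        ∃ a b z z', Route (q.p : Set (ℕ × ℕ)) (wd w.2) ((w.1 : Perm ℕ) a) z ∧
          Route (q.p : Set (ℕ × ℕ)) (wd w.2) ((w.1 : Perm ℕ) b) z' ∧ x0 a = x0 b ∧ x1 z ≠ x1 z'}
  have hfixF : ∀ p : Cond c c' H, ∀ h ∈ (p.F : Set (Perm ℕ)), h ≠ 1 → {x | h x = x}.Finite :=
    fun p h hh => hH h (p.sub h (Finset.mem_coe.1 hh))
  have hdense : ∀ i, DenseIn (Cond c c' H) (T i) := by
    intro i p
    rcases i with n | h | w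
    · obtain ⟨q1, hq1, y1, hy1⟩ := extend hc hc' p.F.finite_toSet (hfixF p) p.p p.good true n
      have hg1 := hq1.good p.good
      obtain ⟨q2, hq2, y2, hy2⟩ := extend hc hc' p.F.finite_toSet (hfixF p) q1 hg1 false n
      refine ⟨⟨q2, p.F, hq2.good hg1, p.sub⟩, ⟨⟨y1, ?_⟩, ⟨y2, hy2⟩⟩, Finset.Subset.refl _,
        hq1.trans hq2⟩
      exact hy1.mono (by exact_mod_cast hq2.subset)
    · refine ⟨⟨p.p, insert (h : Perm ℕ) p.F, p.good, ?_⟩, Finset.mem_insert_self _ _,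
        Finset.subset_insert _ _, Relation.ReflTransGen.refl⟩
      intro f hf
      rcases Finset.mem_insert.1 hf with rfl | hf
      · exact h.2
      · exact p.sub f hf
    · by_cases hw : w.2 ≠ [] ∧ Red (wd w.2)
      · let F' : Finset (Perm ℕ) := p.F ∪ ((wd w.2).map Prod.snd).toFinset
        have hF'H : ∀ h ∈ F', h ∈ H := by
          intro h hh
          rcases Finset.mem_union.1 hh with hh | hh
          · exact p.sub h hh
          · rw [List.mem_toFinset, List.mem_map] at hh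
            obtain ⟨x, hx, rfl⟩ := hh
            exact hwdH _ x hx
        have hne : wd w.2 ≠ [] := by
          intro h
          exact hw.1 (List.map_eq_nil_iff.1 h)
        obtain ⟨q3, hq3, a, b, z, z', hr1, hr2, hab, hzz⟩ := task (x0 := x0) hc hc' hx1
          (w.1 : Perm ℕ) (wd w.2) hne hw.2 (F := (F' : Set (Perm ℕ))) F'.finite_toSet
          (fun h hh => hH h (hF'H h (Finset.mem_coe.1 hh)))
          (fun x hx => Finset.mem_coe.2 (Finset.mem_union_right _ (List.mem_toFinset.2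
            (List.mem_map.2 ⟨x, hx, rfl⟩)))) p.p p.good
        refine ⟨⟨q3, p.F, hq3.good p.good, p.sub⟩, fun _ _ => ⟨a, b, z, z', hr1, hr2, hab, hzz⟩,
          Finset.Subset.refl _, ?_⟩
        exact Ext.mono (by
          intro h hh
          exact Finset.mem_coe.2 (Finset.mem_union_left _ (Finset.mem_coe.1 hh))) hq3
      · refine ⟨p, ?_, le_refl p⟩
        intro h1 h2
        exact absurd ⟨h1, h2⟩ hw
  have hcardT : #(Set.range T) < 𝔠 := by
    refine lt_of_le_of_lt Cardinal.mk_range_le ?_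
    have hL : #(List (Bool × H)) < 𝔠 := by
      refine lt_of_le_of_lt (Cardinal.mk_list_le_max _) ?_
      refine max_lt Cardinal.aleph0_lt_continuum ?_
      rw [Cardinal.mk_prod, Cardinal.lift_id, Cardinal.lift_id]
      exact Cardinal.mul_lt_of_lt Cardinal.aleph0_le_continuum
        ((Cardinal.lt_aleph0_of_finite Bool).trans Cardinal.aleph0_lt_continuum) hHc
    rw [Cardinal.mk_sum, Cardinal.lift_id, Cardinal.lift_id]
    refine Cardinal.add_lt_of_lt Cardinal.aleph0_le_continuum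
      (by rw [Cardinal.mk_nat]; exact Cardinal.aleph0_lt_continuum) ?_
    rw [Cardinal.mk_sum, Cardinal.lift_id, Cardinal.lift_id]
    refine Cardinal.add_lt_of_lt Cardinal.aleph0_le_continuum hHc ?_
    rw [Cardinal.mk_prod, Cardinal.lift_id, Cardinal.lift_id]
    exact Cardinal.mul_lt_of_lt Cardinal.aleph0_le_continuum hHc hL
  obtain ⟨G, hGne, hGup, hGdir, hGD⟩ := hMA (Cond c c' H) (sigmaCentered c c' H) (Set.range T)
    hcardT (by
      rintro _ ⟨i, rfl⟩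
      exact hdense i)
  have hmeet : ∀ i, ∃ p ∈ G, p ∈ T i := fun i => hGD _ ⟨i, rfl⟩
  let Gr : Set (ℕ × ℕ) := {z | ∃ q ∈ G, z ∈ q.p}
  have hsub : ∀ {r q : Cond c c' H}, r ≤ q → q.p ⊆ r.p := fun h => h.2.subset
  have hcommon : ∀ z ∈ Gr, ∀ z' ∈ Gr, ∃ q : Cond c c' H, z ∈ q.p ∧ z' ∈ q.p := by
    rintro z ⟨q, hq, hz⟩ z' ⟨q', hq', hz'⟩
    obtain ⟨r, -, h1, h2⟩ := hGdir q hq q' hq'
    exact ⟨r, hsub h1 hz, hsub h2 hz'⟩
  have htot : ∀ n, ∃ y, (n, y) ∈ Gr := by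
    intro n
    obtain ⟨q, hq, ⟨y, hy⟩, -⟩ := hmeet (Sum.inl n)
    exact ⟨y, q, hq, by simpa [E] using hy⟩
  have hsurj : ∀ n, ∃ y, (y, n) ∈ Gr := by
    intro n
    obtain ⟨q, hq, -, ⟨y, hy⟩⟩ := hmeet (Sum.inl n)
    exact ⟨y, q, hq, by simpa [E] using hy⟩
  choose f hf using htot
  have hfun : ∀ a b, (a, b) ∈ Gr → f a = b := by
    intro a b hab
    obtain ⟨q, h1, h2⟩ := hcommon _ hab _ (hf a)
    exact q.good.inj1 _ _ _ h2 h1
  have hbij : Function.Bijective f := by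
    constructor
    · intro a a' haa
      obtain ⟨q, h1, h2⟩ := hcommon _ (hf a) _ (hf a')
      rw [← haa] at h2
      exact q.good.inj2 _ _ _ h1 h2
    · intro b
      obtain ⟨a, ha⟩ := hsurj b
      exact ⟨a, hfun _ _ ha⟩
  let g : Perm ℕ := Equiv.ofBijective f hbij
  have hgGr : Graph g = Gr := by
    ext ⟨a, b⟩
    constructor
    · intro h
      have h' : f a = b := h
      rw [← h']
      exact hf a
    · intro h
      exact hfun _ _ h
  refine ⟨g, ?_, ?_, ?_⟩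
  · intro n
    obtain ⟨q, -, hm⟩ := hf n
    exact q.good.col _ _ hm
  · intro F0 hF0 hF0H
    obtain ⟨q0, hq0, hF0q⟩ : ∃ q0 ∈ G, F0 ⊆ (q0.F : Set (Perm ℕ)) := by
      induction F0, hF0 using Set.Finite.induction_on with
      | empty => 
        obtain ⟨q, hq⟩ := hGne
        exact ⟨q, hq, Set.empty_subset _⟩
      | @insert a S ha hS ih =>
        rw [Set.insert_subset_iff] at hF0H
        obtain ⟨q, hq, hSq⟩ := ih hF0H.2
        obtain ⟨q', hq', haq'⟩ := hmeet (Sum.inr (Sum.inl ⟨a, hF0H.1⟩))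
        obtain ⟨r, hr, h1, h2⟩ := hGdir q hq q' hq'
        refine ⟨r, hr, Set.insert_subset_iff.2 ⟨?_, hSq.trans ?_⟩⟩
        · exact Finset.mem_coe.2 (h2.1 haq')
        · exact_mod_cast h1.1
    refine ⟨q0.p, fun S hS => ?_⟩
    rw [hgGr] at hS
    obtain ⟨q1, hq1, hSq1⟩ : ∃ q1 ∈ G, S ⊆ q1.p := by
      induction S using Finset.induction_on with
      | empty => exact ⟨q0, hq0, Finset.empty_subset _⟩
      | insert a S ha ih =>
        rw [Finset.coe_insert, Set.insert_subset_iff] at hS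
        obtain ⟨q, hq, hSq⟩ := ih hS.2
        obtain ⟨q', hq', haq'⟩ := hS.1
        obtain ⟨r, hr, h1, h2⟩ := hGdir q hq q' hq'
        exact ⟨r, hr, Finset.insert_subset_iff.2 ⟨hsub h2 haq', hSq.trans (hsub h1)⟩⟩
    obtain ⟨r, hr, h1, h2⟩ := hGdir q0 hq0 q1 hq1
    exact ⟨r.p, h1.2.mono hF0q, hSq1.trans (hsub h2)⟩
  · intro L h0 hh0 hL hred hLH
    obtain ⟨L', rfl⟩ := hwd L hLH
    obtain ⟨q, hq, hqT⟩ := hmeet (Sum.inr (Sum.inr (⟨h0, hh0⟩, L')))
    obtain ⟨a, b, z, z', hr1, hr2, hab, hzz⟩ := hqT (by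
      rintro h
      have h' : L' = [] := h
      exact hL (by rw [h']; rfl)) hred
    have hle : (q.p : Set (ℕ × ℕ)) ⊆ Graph g := by
      rw [hgGr]
      exact fun z hz => ⟨q, hq, Finset.mem_coe.1 hz⟩
    have h1 := route_graph (wd L') _ _ (hr1.mono hle)
    have h2 := route_graph (wd L') _ _ (hr2.mono hle)
    refine ⟨a, b, hab, ?_⟩
    simp only [Perm.mul_apply]
    have h1' : ev g (wd L') (h0 a) = z := h1
    have h2' : ev g (wd L') (h0 b) = z' := h2
    rw [h1', h2']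
    exact hzz

end Pool.Agent.Y561.KS
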